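import Pool.Agent.Q297.CKF.Main

/-!
# The diamond-free fragments of `CK ⊕ N_◇ ⊕ wCD` and `CK ⊕ N_◇ ⊕ wCD ⊕ C_◇`
-/

namespace Pool.Agent.Results.MP_1f55c7_lc.DiamondFreeFragments

open Pool.Agent.Q297.CKF

/-- Q1: the diamond-free fragment of `L₂` is not contained in that of `L₁`. Q2: the diamond-free
fragment of `L₁` is finitely axiomatisable, that of `L₂` is not. -/
theorem result : ¬ frag L₂ ⊆ frag L₁ ∧ FinAx (frag L₁) ∧ ¬ FinAx (frag L₂) :=
  ⟨not_subset, finAx_L₁, not_finAx_L₂⟩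

end Pool.Agent.Results.MP_1f55c7_lc.DiamondFreeFragments
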